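import Pool.Agent.Lib.MP_f973c6_al.Core
import Pool.Agent.Lib.MP_f973c6_al.Perturb
import Pool.Agent.Lib.MP_f973c6_al.CharData
import Pool.Agent.Lib.MP_f973c6_al.Reduction

/-! The only-if half of the FP_m conjecture: every finitely generated metabelian group of type
FP_m is m-tame, for every m. The statement is the forward implication of the frozen statement. -/

set_option autoImplicit false

namespace Pool.Agent.Results.MP_f973c6_al.OnlyIf

open Pool.Agent.FPm

theorem comm_of_derived {G : Type} [Group G] (h2 : derivedSeries G 2 = ⊥) :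
    ∀ a ∈ commutator G, ∀ b ∈ commutator G, a * b = b * a := by
  intro a ha b hb
  have h : ⁅derivedSeries G 1, derivedSeries G 1⁆ = ⊥ := by
    rw [← h2]; rfl
  rw [derivedSeries_one] at h
  have := Subgroup.commutator_mem_commutator ha hb
  rw [h, Subgroup.mem_bot, commutatorElement_eq_one_iff_mul_comm] at this
  exact this

theorem notFG_scale {G : Type} [Group G] (χ' : G → ℤ) (n : ℤ) (_ : IsHomZ χ') (hn : 0 < n)
    (h : NotFG (fun g => n * χ' g)) : NotFG χ' := by
  intro S hS
  obtain ⟨a, ha, h⟩ := h S hS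
  refine ⟨a, ha, ?_⟩
  have : {x : G | ∃ s ∈ S, ∃ g : G, 0 ≤ χ' g ∧ x = g * s * g⁻¹} =
      {x : G | ∃ s ∈ S, ∃ g : G, 0 ≤ n * χ' g ∧ x = g * s * g⁻¹} := by
    ext x
    simp only [Set.mem_setOf_eq, mul_nonneg_iff_of_pos_left hn]
  rw [this]; exact h

theorem main (G : Type) [Group G] (hfg : Group.FG G) (h2 : derivedSeries G 2 = ⊥) (m : ℕ)
    (hFP : FPcond G m) : TameCond G m := by
  intro k hk χ hχ ⟨c, hc, hc0, hrel⟩
  have hmet := comm_of_derived h2
  obtain ⟨r, hr, hrk, ψ, hgood, hψ⟩ := reduction hfg k χ c hc hc0 hrel NotFG notFG_scale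
    (fun i => perturb hfg hmet (χ i) (hχ i).2)
  refine core (commutator G) hmet m hFP r hr (hrk.trans hk) ψ hgood ?_ ?_
  · intro i a ha
    have hhom := hgood.hom i
    let f : G →* Multiplicative ℤ :=
      { toFun := fun g => Multiplicative.ofAdd (ψ i g)
        map_one' := by
          have := hhom 1 1
          simp only [mul_one] at this
          rw [show ψ i 1 = 0 by omega]; rfl
        map_mul' := fun g h => by rw [hhom g h]; rfl }
    have hle : commutator G ≤ f.ker := Abelianization.commutator_subset_ker f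
    have := hle ha
    rw [MonoidHom.mem_ker] at this
    exact Multiplicative.ofAdd.injective this
  · intro i
    exact charData hfg hmet (ψ i) (hgood.hom i) (hgood.surj i) (hψ i)

/-- If a finitely generated metabelian group `G` has a partial resolution of `ℤ` by finitely
generated free modules up to degree `m` (type FP_m), then no nonzero nonnegative combination of
at most `m` nonzero characters outside `Σ¹` vanishes (`G` is `m`-tame). -/
theorem result :
    ∀ (G : Type) [Group G], Group.FG G → derivedSeries G 2 = ⊥ → ∀ m : ℕ,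
      ((∃ (ε : MonoidAlgebra ℤ G →+* ℤ) (n : ℕ → ℕ)
          (d : ∀ i : ℕ, (Fin (n (i + 1)) → MonoidAlgebra ℤ G) →ₗ[MonoidAlgebra ℤ G]
            (Fin (n i) → MonoidAlgebra ℤ G)),
          (∀ g : G, ε (MonoidAlgebra.of ℤ G g) = 1) ∧
          Function.Surjective
              (fun v : Fin (n 0) → MonoidAlgebra ℤ G => ∑ j, ε (v j)) ∧
            (1 ≤ m → ∀ v : Fin (n 0) → MonoidAlgebra ℤ G,
              (∑ j, ε (v j) = 0 ↔ v ∈ LinearMap.range (d 0))) ∧
            (∀ i : ℕ, i + 1 < m → LinearMap.ker (d i) = LinearMap.range (d (i + 1)))) →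
        (∀ k : ℕ, k ≤ m → ∀ χ : Fin k → (Additive G →+ ℝ),
          (∀ i, χ i ≠ 0 ∧
            ¬ (∃ S : Finset G, Subgroup.closure (S : Set G) = ⊤ ∧
                (SimpleGraph.induce {g : G | 0 ≤ χ i (Additive.ofMul g)}
                  (SimpleGraph.fromRel (fun g h : G => ∃ s ∈ S, h = g * s))).Connected)) →
          ¬ ∃ c : Fin k → ℝ, (∀ i, 0 ≤ c i) ∧ (∃ i, c i ≠ 0) ∧
              ∀ g : G, ∑ i, c i * χ i (Additive.ofMul g) = 0)) :=
  fun G _ hfg h2 m hFP => main G hfg h2 m hFP

end Pool.Agent.Results.MP_f973c6_al.OnlyIf
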